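import Pool.Agent.Q128.MycFour

/-!
# A non-bipartite graph with `M_c(G) = χ_c(G)`

The Mycielski graph `G` of the triangle (7 vertices: a triangle `t_0 t_1 t_2`, vertices `x_i` adjacent to
the `t_j` with `j ≠ i`, and `o` adjacent to the `x_i`) has `M_c(G) = χ_c(G) = 4`.

Every `(k, q)`-colouring can be transformed to one with `x_i = t_i`; then the colours of
`t_0, t_1, t_2, o` are pairwise apart, so that `k ≥ 4 q`. The colours of `t_i, t_j, o` can be permuted
cyclically, and for `k > 4 q` the four colours can be rotated around the circle, which is an odd
permutation. For `k = 4`, `q = 1` a parity is invariant.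
-/

set_option autoImplicit false

namespace Pool.Agent.Results.MP_3baeb2_co.MycielskiTriangle

open Q128.Mixing Q128.Myc

/-- **A non-bipartite graph whose circular mixing threshold equals its circular chromatic number.** -/
theorem result : ∃ (V : Type) (_ : Fintype V) (G : SimpleGraph V), G.Connected ∧
    ¬ G.Colorable 2 ∧ circularMixingThreshold G = circularChromaticNumber G ∧
    circularChromaticNumber G = 4 := by
  refine ⟨_, inferInstance, My, my_connected, my_not_colorable, ?_, my_circChrom⟩
  rw [my_circular, my_circChrom]

end Pool.Agent.Results.MP_3baeb2_co.MycielskiTriangle
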